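import Pool.Agent.helper82.CF.Defs

/-!
# Project fl (MP_cf4097_nt, fake L-functions), block Z: from the coefficients to the member of the class

Given: a kernel `k` with Mellin transform `∏ Γ_ℝ (s + μ_j)` (structure `Ker`), completely multiplicative real coefficients
`lam` with `|lam m| ≤ 1` (structure `Coef`), and for all real `u`
`∑ lam m (e^(u/2) k(e^u m/√q) - e^(-u/2) k(e^(-u) m/√q)) = 0`. Then `∑ lam m m^(-s)` is the L-function of a member of `Std 0 K`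
with conductor `q`, archimedean parameters `μ`, root number 1, and
`q^(1/4) ∏ Γ_ℝ(1/2 + μ_j) L(1/2) = 2 ∑ lam m h(m/√q)`, `h(x) = ∫_1^∞ k(x y) y^(-1/2) dy`.

Rows: file `Pool/Agent/<seat>/FL/XX.lean`, `import Pool.Agent.helper70.FL.SpecZ`, namespace `Pool.Agent.FL`,
`theorem XX (h1 : YY_stmt) ... : XX_stmt`; other statements of the file may be hypotheses, no circles.
-/

set_option autoImplicit false

open MeasureTheory Set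
open scoped ComplexConjugate

namespace Pool.Agent.FL

noncomputable section

/-- A kernel `k` on `(0, ∞)` with Mellin transform `∏ Γ_ℝ (s + μ_j)`. -/
structure Ker {n : ℕ} (μ : Fin n → ℝ) (k : ℝ → ℝ) : Prop where
  /-- nonnegative archimedean parameters -/
  pos : ∀ j, 0 ≤ μ j
  /-- continuity -/
  cont : ContinuousOn k (Ioi 0)
  /-- rapid decay at infinity -/
  dec : ∀ r : ℝ, ∃ C : ℝ, ∀ x : ℝ, 1 ≤ x → |k x| ≤ C * x ^ r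
  /-- growth at zero -/
  small : ∀ ε : ℝ, 0 < ε → ∃ C : ℝ, ∀ x : ℝ, 0 < x → x ≤ 1 → |k x| ≤ C * x ^ (-ε)
  /-- Mellin transform -/
  mel : ∀ s : ℂ, 0 < s.re → mellin (fun x : ℝ => (k x : ℂ)) s = ∏ j, Complex.Gammaℝ (s + (μ j : ℂ))

/-- Completely multiplicative real coefficients with `|lam m| ≤ 1`. -/
structure Coef (lam : ℕ → ℝ) : Prop where
  zero : lam 0 = 0
  one : lam 1 = 1
  mul : ∀ a b : ℕ, lam (a * b) = lam a * lam b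
  le : ∀ m : ℕ, |lam m| ≤ 1

/-- `f_u(x) = e^(u/2) k(e^u x) - e^(-u/2) k(e^(-u) x)` -/
def FU (k : ℝ → ℝ) (u x : ℝ) : ℝ :=
  Real.exp (u / 2) * k (Real.exp u * x) - Real.exp (-u / 2) * k (Real.exp (-u) * x)

/-- the theta function `∑ lam m k(m x/√q)` -/
def theta (k : ℝ → ℝ) (lam : ℕ → ℝ) (q : ℕ) (x : ℝ) : ℝ :=
  ∑' m : ℕ, lam m * k ((m : ℝ) * x / Real.sqrt q)

/-- `h(x) = ∫_1^∞ k(x y) y^(-1/2) dy` -/
def hk (k : ℝ → ℝ) (x : ℝ) : ℝ := ∫ y in Ioi (1 : ℝ), k (x * y) * y ^ (-(1 / 2) : ℝ)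

/-- the completed L-function: Mellin transform of the theta function -/
def Lam (k : ℝ → ℝ) (lam : ℕ → ℝ) (q : ℕ) (s : ℂ) : ℂ := mellin (fun x : ℝ => (theta k lam q x : ℂ)) s

/-- the L-function: completed one divided by the gamma factors -/
def Lf {n : ℕ} (μ : Fin n → ℝ) (k : ℝ → ℝ) (lam : ℕ → ℝ) (q : ℕ) (s : ℂ) : ℂ :=
  Lam k lam q s * (q : ℂ) ^ (-s / 2) * ∏ j, (Complex.Gammaℝ (s + (μ j : ℂ)))⁻¹

/-- the functional equation for the coefficients -/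
def FE (k : ℝ → ℝ) (lam : ℕ → ℝ) (q : ℕ) : Prop :=
  ∀ u : ℝ, ∑' m : ℕ, lam m * FU k u ((m : ℝ) / Real.sqrt q) = 0

/-! ## theta -/

/-- (short) For every `r ≥ 1` there is `C` with `|k y| ≤ C y^(-r)` for ALL `y > 0`: `dec` with exponent `-r` for `y ≥ 1`; for
`y ≤ 1`: `small` with `ε = 1` and `y^(-1) ≤ y^(-r)`. -/
def ZKB_stmt : Prop := ∀ (n : ℕ) (μ : Fin n → ℝ) (k : ℝ → ℝ), Ker μ k → ∀ r : ℝ, 1 ≤ r →
  ∃ C : ℝ, 0 < C ∧ ∀ y : ℝ, 0 < y → |k y| ≤ C * y ^ (-r)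

/-- (short-medium) By ZKB with `r = 2`, `|lam m k(m x/√q)| ≤ C q m^(-2) x^(-2)` (`m ≥ 1`; the term `m = 0` is 0 because
`lam 0 = 0`): summable, and uniformly for `x ≥ δ > 0`, so the sum is continuous on `(0, ∞)` (`continuousOn_tsum` on `[δ, ∞)`, every
term is continuous by `cont`). Decay: for `r < 0` take ZKB with exponent `R = max 2 (-r)`: `|theta x| ≤ C √q^R (∑ m^(-R)) x^(-R)`, and
`x^(-R) ≤ x^r` for `x ≥ 1`; the same for `r ≥ 0`. -/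
def ZTH_stmt : Prop := ∀ (n : ℕ) (μ : Fin n → ℝ) (k : ℝ → ℝ) (lam : ℕ → ℝ) (q : ℕ), Ker μ k → Coef lam → 1 ≤ q →
  (∀ x : ℝ, 0 < x → Summable (fun m : ℕ => lam m * k ((m : ℝ) * x / Real.sqrt q))) ∧
  ContinuousOn (theta k lam q) (Ioi 0) ∧
  ∀ r : ℝ, ∃ C : ℝ, ∀ x : ℝ, 1 ≤ x → |theta k lam q x| ≤ C * x ^ r

/-- (short) `x > 0`, `u = log x`: the sum in FE is `√x theta(x) - theta(1/x)/√x` (both series converge by ZTH, `tsum_sub`,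
`tsum_mul_left`; `m/√q * e^u = m x/√q`). -/
def ZTE_stmt : Prop := ∀ (n : ℕ) (μ : Fin n → ℝ) (k : ℝ → ℝ) (lam : ℕ → ℝ) (q : ℕ), Ker μ k → Coef lam → 1 ≤ q →
  FE k lam q → ∀ x : ℝ, 0 < x → theta k lam q (1 / x) = x * theta k lam q x

/-- (short-medium) From ZTH and ZTE: `|theta x| ≤ C x^r` for `x ≥ 1` and, as `theta x = (1/x) theta(1/x)`, `|theta x| ≤ C x^(-1-r)` for
`x ≤ 1`, for all `r`; so the Mellin integral converges absolutely for every `s` and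
`|Lam s| ≤ ∫ |theta x| (x^(A-1) + x^(-A-1)) dx` for `|Re s| ≤ A`. Entire and `Lam (1-s) = Lam s`: Mathlib `StrongFEPair` with `f = g = theta`,
`k = 1`, `ε = 1` (`differentiable_Λ`, `functional_equation`; `Λ` is `mellin f` by definition or `rfl`). Reality: the integrand of
`Lam (conj s)` is the conjugate (`integral_conj`, `x^(conj s - 1) = conj (x^(s-1))` for `x > 0`). -/
def ZLA_stmt : Prop := ∀ (n : ℕ) (μ : Fin n → ℝ) (k : ℝ → ℝ) (lam : ℕ → ℝ) (q : ℕ), Ker μ k → Coef lam → 1 ≤ q →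
  FE k lam q → Differentiable ℂ (Lam k lam q) ∧ (∀ s : ℂ, Lam k lam q (1 - s) = Lam k lam q s) ∧
  (∀ s : ℂ, Lam k lam q (conj s) = conj (Lam k lam q s)) ∧
  (∀ s : ℂ, MellinConvergent (fun x : ℝ => (theta k lam q x : ℂ)) s) ∧
  ∀ A : ℝ, ∃ M : ℝ, ∀ s : ℂ, |s.re| ≤ A → ‖Lam k lam q s‖ ≤ M

/-- (medium) For `Re s > 1`: integrate the series of `theta` termwise (`hasSum_integral_of_summable_integral_norm`): by
`mellin_comp_mul_left` (`a = m/√q`) the term `m ≥ 1` has Mellin transform `lam m (m/√q)^(-s) ∏ Γ_ℝ(s+μ_j)`, and its absolute integral is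
`≤ (m/√q)^(-Re s) ∫ |k x| x^(Re s - 1) dx`, finite by `dec` (`r = -Re s - 1`) and `small` (`ε = Re s/2`); summable because `Re s > 1`.
`(m/√q)^(-s) = q^(s/2) m^(-s)`; the sum `∑ lam m m^(-s)` is `LSeries` (`LSeries.term`, `lam 0 = 0`). -/
def ZML_stmt : Prop := ∀ (n : ℕ) (μ : Fin n → ℝ) (k : ℝ → ℝ) (lam : ℕ → ℝ) (q : ℕ), Ker μ k → Coef lam → 1 ≤ q →
  ∀ s : ℂ, 1 < s.re → Lam k lam q s =
    (q : ℂ) ^ (s / 2) * (∏ j, Complex.Gammaℝ (s + (μ j : ℂ))) * LSeries (fun m => (lam m : ℂ)) s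

/-! ## the L-function -/

/-- (short) `Lf` is entire: ZLA and `Complex.differentiable_Gammaℝ_inv` (composed with `s ↦ s + μ_j`, finite product), `q ≠ 0`.
For `Re s > 1`: ZML, `Gammaℝ (s + μ_j) ≠ 0` (`Gammaℝ_ne_zero_of_re_pos`), `q^(s/2) q^(-s/2) = 1`. Functional equation: both sides are
`Lam s * ∏ (Γ_ℝ(s+μ_j))⁻¹ * ∏ (Γ_ℝ(1-s+μ_j))⁻¹`. Reality: `Complex.Gamma_conj`, so `Γ_ℝ(conj z) = conj Γ_ℝ(z)`, `q^(conj z) = conj (q^z)`. -/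
def ZLF_stmt : Prop := ∀ (n : ℕ) (μ : Fin n → ℝ) (k : ℝ → ℝ) (lam : ℕ → ℝ) (q : ℕ), Ker μ k → Coef lam → 1 ≤ q →
  FE k lam q → Differentiable ℂ (Lf μ k lam q) ∧
  (∀ s : ℂ, 1 < s.re → Lf μ k lam q s = LSeries (fun m => (lam m : ℂ)) s) ∧
  (∀ s : ℂ, (q : ℂ) ^ (s / 2) * Lf μ k lam q s * ∏ j, (Complex.Gammaℝ (1 - s + (μ j : ℂ)))⁻¹ =
    (q : ℂ) ^ ((1 - s) / 2) * Lf μ k lam q (1 - s) * ∏ j, (Complex.Gammaℝ (s + (μ j : ℂ)))⁻¹) ∧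
  ∀ s : ℂ, Lf μ k lam q (conj s) = conj (Lf μ k lam q s)

/-- (medium) Exponential bound for `1/Γ_ℝ` in vertical strips. First `1/Γ`: for `Re z < 1`, `1/Γ(z) = Γ(1-z) sin(πz)/π`
(`Complex.Gamma_mul_Gamma_one_sub`), `|Γ(1-z)| ≤ Γ(1 - Re z)` (see `XB_Gamma_le` in `Pool/Agent/helper74/DM/XB.lean`), continuous on a compact set if
`Re z ∈ [-A, 1/2]`, and `|sin(πz)| ≤ e^(π |Im z|)`. For `Re z ≤ A'` use `1/Γ(z) = (z-1) ⋯ (z-N) / Γ(z-N)` (`Complex.Gamma_add_one`; or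
`Complex.one_div_Gamma_eq_self_mul_one_div_Gamma_add_one` read backwards) with `N ≥ A'`, and `|z-j| ≤ C e^{|Im z|}`.
`Γ_ℝ(z) = π^(-z/2) Γ(z/2)`. -/
def ZGI_stmt : Prop := ∀ A : ℝ, ∃ C : ℝ, 0 < C ∧ ∀ z : ℂ, |z.re| ≤ A → ‖(Complex.Gammaℝ z)⁻¹‖ ≤ C * Real.exp (C * |z.im|)

/-- (medium) Let `z = -(N - 1/2) + μ + i t`, `μ ≥ 0` real. Then `1 + (N - 1/2) + μ + i t = z + 2 N`, and
`|Γ_ℝ(z + 2N)| |(Γ_ℝ z)⁻¹| ≤ ∏_{j<N} |z + 2j|/(2π) ≤ (|z| + 2N)^N`: induction on `N` from `Γ_ℝ(w + 2) = Γ_ℝ(w) w/(2π)` (`Complex.Gammaℝ_add_two`, `w ≠ 0`;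
if some `w = z + 2j` is 0 then `Γ_ℝ z = 0` or its inverse is 0 in Lean, `Complex.Gammaℝ_eq_zero_iff`, and the left side is 0). -/
def ZGR_stmt : Prop := ∀ (N : ℕ) (z : ℂ),
  ‖Complex.Gammaℝ (z + 2 * (N : ℂ))‖ * ‖(Complex.Gammaℝ z)⁻¹‖ ≤ (‖z‖ + 2 * N) ^ N

/-- (medium) Polynomial growth in vertical strips. Let `A` be given, `N` a natural number `≥ |A| + 2`, strip `-(N-1/2) ≤ Re s ≤ N`. Right line:
`|Lf s| ≤ ∑ m^(-2)`-type constant (ZLF, `N ≥ 2`). Left line `s = -(N-1/2) + i t`: by the functional equation of ZLF,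
`Lf s = q^(1/2 - s) Lf(1-s) ∏ Γ_ℝ(1-s+μ_j) (Γ_ℝ(s+μ_j))⁻¹` (`Γ_ℝ(1-s+μ_j) ≠ 0`), `|Γ_ℝ(1-s+μ_j)| = |Γ_ℝ(1 - conj s + μ_j)|`,
`1 - conj s + μ_j = s + μ_j + 2N`, so ZGR gives a bound `C (1+|t|)^(N n)`. Inside the strip `|Lf s| ≤ C e^(C |Im s|)` (ZLA, ZGI).
`PhragmenLindelof.vertical_strip` for `Lf s / (s - 2N - 1)^(N n)` (or `* ((s - 2N - 1)⁻¹)^(N n)`), bounded on both lines. -/
def ZPL_stmt : Prop := ∀ (n : ℕ) (μ : Fin n → ℝ) (k : ℝ → ℝ) (lam : ℕ → ℝ) (q : ℕ), Ker μ k → Coef lam → 1 ≤ q →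
  FE k lam q → ∀ A : ℝ, ∃ B : ℝ, ∀ s : ℂ, |s.re| ≤ A → ‖Lf μ k lam q s‖ ≤ B * (1 + |s.im|) ^ B

/-- (medium) Euler product in logarithmic form. Mathlib `EulerProduct.exp_tsum_primes_log_eq_tsum` for the completely multiplicative
function `m ↦ lam m m^(-s)` (summable norm for `Re s > 1` because `|lam m| ≤ 1`): `∑ lam m m^(-s) = exp (∑_p -log(1 - lam p p^(-s)))`; then
`-log(1-z) = ∑_{k ≥ 1} z^k/k` (`Complex.hasSum_taylorSeries_neg_log`), and the double sum over `(p, k)`, absolutely convergent, is the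
sum over the prime powers `m = p^k` of `Λ(m) lam m/log m m^(-s)` (`Λ(p^k)/log(p^k) = 1/k`; reindex with
`Nat.Primes × ℕ → ℕ`, `(p,k) ↦ p^(k+1)` injective with range the prime powers; `ArithmeticFunction.vonMangoldt_eq_zero_iff`). -/
def ZEU_stmt : Prop := ∀ (lam : ℕ → ℝ), Coef lam → ∀ s : ℂ, 1 < s.re →
  LSeries (fun m => (lam m : ℂ)) s = Complex.exp (∑' m : ℕ,
    (ArithmeticFunction.vonMangoldt m : ℂ) * (lam m : ℂ) / (Real.log m : ℂ) * (m : ℂ) ^ (-s))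

/-! ## central value -/

/-- (medium) `Lam(1/2) = ∫_0^∞ theta(x) x^(-1/2) dx`; the part over `(0,1]` equals the part over `[1,∞)` (substitution `x = 1/y`, ZTE:
`theta(1/y) = y theta(y)`, `dx = dy/y²`); so `Lam(1/2) = 2 ∫_1^∞ theta(y) y^(-1/2) dy = 2 ∑ lam m ∫_1^∞ k(m y/√q) y^(-1/2) dy` (termwise
integration, `|k(m y/√q)| ≤ C q m^(-2) y^(-2)` by ZKB). -/
def ZCV_stmt : Prop := ∀ (n : ℕ) (μ : Fin n → ℝ) (k : ℝ → ℝ) (lam : ℕ → ℝ) (q : ℕ), Ker μ k → Coef lam → 1 ≤ q →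
  FE k lam q → Lam k lam q (1 / 2) = ((2 * ∑' m : ℕ, lam m * hk k ((m : ℝ) / Real.sqrt q) : ℝ) : ℂ)

/-- (short-medium) Assembly. `D = ⟨Lf μ k lam q, fun m => lam m, q, fun j => μ j⟩`. `entire`, `euler` (ZLF, ZEU), `growth` (ZPL), `lrs`
(`|lam m| ≤ 1 ≤ n m^0`, `n ≥ 1`), `lrsμ`, `fe` with `w = 1` (ZLF; `conj (Lf (1 - conj s)) = Lf (1 - s)` by reality), `rs`: for `σ > 0` the terms are
at most `Λ(m) lam m²/m`, so the sum is `≤ K log q ≤ K (1/σ + 1 + log Q(t))` since `Q(t) ≥ q`. Central value: ZCV and the definition of `Lf`. -/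
def ZFI_stmt : Prop := ∀ (n : ℕ) (μ : Fin n → ℝ) (k : ℝ → ℝ) (lam : ℕ → ℝ) (q : ℕ) (K : ℝ), 1 ≤ n → 0 < K → Ker μ k → Coef lam →
  1 ≤ q → FE k lam q →
  Summable (fun m : ℕ => ArithmeticFunction.vonMangoldt m * lam m ^ 2 * (m : ℝ) ^ (-1 : ℝ)) →
  ∑' m : ℕ, ArithmeticFunction.vonMangoldt m * lam m ^ 2 * (m : ℝ) ^ (-1 : ℝ) ≤ K * (1 + Real.log q) →
  ∃ D : CF.LDatum n, CF.Std 0 K D ∧ D.q = q ∧ (∀ j, D.μ j = (μ j : ℂ)) ∧ (∀ m : ℕ, D.a m = (lam m : ℂ)) ∧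
    (∀ s : ℂ, 1 < s.re → D.L s = LSeries (fun m => (lam m : ℂ)) s) ∧
    (∀ s : ℂ, (q : ℂ) ^ (s / 2) * D.L s * ∏ j, (Complex.Gammaℝ (1 - s + (μ j : ℂ)))⁻¹ =
      (q : ℂ) ^ ((1 - s) / 2) * D.L (1 - s) * ∏ j, (Complex.Gammaℝ (s + (μ j : ℂ)))⁻¹) ∧
    D.L (1 / 2) = ((2 * (q : ℝ) ^ (-(1 / 4) : ℝ) * ∑' m : ℕ, lam m * hk k ((m : ℝ) / Real.sqrt q) : ℝ) : ℂ) *
      ∏ j, (Complex.Gammaℝ (1 / 2 + (μ j : ℂ)))⁻¹

/-! ## the elementary kernel with `μ_j = 2 j/n` -/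

/-- (medium) Gauss multiplication formula without the constant. With `GammaSeq z N = N^z N!/(z (z+1) ⋯ (z+N))`:
`∏_{j<k} GammaSeq (z + j/k) N = R_N k^(kN+k) (N!)^k N^((k-1)/2) N^(kz) / ∏_{l < k(N+1)} (k z + l)` (the numbers `i k + j`, `i ≤ N`, `j < k`, run through
`l < k(N+1)`), and `GammaSeq (k z) (k(N+1) - 1) = (k(N+1)-1)^(kz) (k(N+1)-1)! / ∏_{l < k(N+1)} (k z + l)`; so
`∏_j GammaSeq (z + j/k) N = A_N (N/(k(N+1)-1))^(kz) GammaSeq (k z) (k(N+1)-1)` with `A_N > 0` independent of `z`. At `z = 1` all limits are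
positive reals, so `A_N` converges to some `A > 0`; `(N/(k(N+1)-1))^(kz) → k^(-kz)`; `Complex.GammaSeq_tendsto_Gamma`, uniqueness of
limits. (At poles both sides are 0 in Lean and the proof is the same.) -/
def ZGM_stmt : Prop := ∀ k : ℕ, 1 ≤ k → ∃ A : ℝ, 0 < A ∧ ∀ z : ℂ,
  ∏ j : Fin k, Complex.Gamma (z + (j : ℂ) / (k : ℂ)) = (A : ℂ) * (k : ℂ) ^ (-((k : ℂ) * z)) * Complex.Gamma ((k : ℂ) * z)

/-- (short-medium) `k(x) = C exp(-π n x^(2/n))` is a kernel with parameters `2 j/n`, for a suitable `C > 0`: the Mellin transform of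
`exp(-c x^(2/n))` is `(n/2) c^(-ns/2) Γ(ns/2)` (substitute `y = x^(2/n)`: `mellin_comp_rpow` and `mellin` of `exp(-c y)`,
`Complex.integral_cpow_mul_exp_neg_mul_Ioi`, or `Complex.GammaIntegral`), and
`∏ Γ_ℝ(s + 2j/n) = ∏ π^(-(s+2j/n)/2) Γ(s/2 + j/n) = π^(-ns/2) C' n^(-ns/2) Γ(ns/2)` by ZGM with `z = s/2`. -/
def ZKE_stmt : Prop := ∀ n : ℕ, 1 ≤ n → ∃ C : ℝ, 0 < C ∧
  Ker (fun j : Fin n => 2 * (j : ℝ) / n) (fun x : ℝ => C * Real.exp (-(Real.pi * n * x ^ (2 / (n : ℝ)))))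

end

end Pool.Agent.FL
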